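import Pool.Agent.TH376.TC.Gates

/-!
# The Tate conjecture for singular varieties and singular cubic hypersurfaces

For polynomials `g_0, …, g_r` in `n` variables over `k` let `V ⊆ 𝔸^n` be the closed subscheme
`g_0 = ⋯ = g_r = 0` and let `E` be the hypersurface `g_0 t_0 + ⋯ + g_r t_r = 0` in `𝔸^(n+r+1)`.
It contains `V × 𝔸^(r+1)`, and the complement `U` is a bundle of affine spaces `𝔸^r` over
`B = 𝔸^n ∖ V`. It is a divisor with trivial normal bundle in `B × 𝔸^(r+1)`, so that the push-forward
of its homology to `B × 𝔸^(r+1)` is zero. As the boundary map `H(U) → H(V × 𝔸^(r+1))` factors over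
this push-forward it is zero: the homology of `V × 𝔸^(r+1)` is contained in that of `E`. Cycles of
dimension `p + r + 1` on `U` are rationally equivalent to zero if `p + 1 < n`. So the Tate conjecture
for `E` in dimension `p + r + 1` implies the one for `V` in dimension `p`, in all characteristics,
without resolution of singularities or semisimplicity. Every algebra of finite type can be presented
by the equations `x_a x_b = x_c`, `x_a + x_b = x_c`, `x_a = s`.
-/

set_option autoImplicit false

open CategoryTheory CategoryTheory.Limits AlgebraicGeometry Pool.Agent.TH90.Cub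
  Pool.Agent.TH376.TC

namespace Pool.Agent.Results.MP_40dc3c_ag.CubicHypersurfaces

/-- There is an affine variety `Y` over `k` and a Zariski-locally trivial bundle `Y ⟶ X` of affine
spaces. (By Jouanolou's trick this holds for all quasi-projective varieties `X`.) -/
def HasAffineBundle {k : Type} [Field k] (X : Sch k) : Prop :=
  ∃ (D : Type) (_ : CommRing D) (_ : Algebra k D) (q : aff k D ⟶ X) (d : ℕ),
    Algebra.FiniteType k D ∧ LocTriv q.left d

/-- Question 1 holds in all dimensions `j` for the cubic hypersurfaces `E_g`: the hypersurface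
`E_g` has the equation `g_0 t_0 + ⋯ + g_r t_r = 0` in the affine space over `k` with the
coordinates `x_1, …, x_n, t_0, …, t_r`, and each of the `g_i` is one of the polynomials
`x_a x_b - x_c`, `x_a + x_b - x_c`, `x_a - s` with `s` in `S`. -/
def CubicQ1 {k K G : Type} [Field k] [Field K] [Group G] (T : Theory k K G) (S : Set k) : Prop :=
  ∀ (n r : ℕ) (g : Fin (r + 1) → MvPolynomial (Fin n) k), (∀ i, IsGate S (g i)) →
    ∀ j : ℕ, T.Q1 j (aff k (Cone g))

/-- **Jannsen's form of the Tate conjecture is equivalent to its case for singular cubic
hypersurfaces.** Let `S` be a set which contains `1` and generates the field `k`. Question 1 holds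
for all varieties `X` over `k` (in positive characteristic: for all `X` with a locally trivial
bundle `Y ⟶ X` of affine spaces, `Y` affine, for example for all quasi-projective `X`) if and only
if it holds for the cubic hypersurfaces `E_g`. -/
theorem result {k K G : Type} [Field k] [Field K] [Group G] (T : Theory k K G) (S : Set k)
    (hS : Subfield.closure S = ⊤) (h1 : (1 : k) ∈ S) :
    (∀ X : Sch k, IsVar X → (CharZero k ∨ HasAffineBundle X) → ∀ j, T.Q1 j X) ↔
      CubicQ1 T S := by
  have hcone : ∀ (n r : ℕ) (g : Fin (r + 1) → MvPolynomial (Fin n) k),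
      Algebra.FiniteType k (Cone g) := by
    intro n r g
    have hM : Algebra.FiniteType k (MvPolynomial (Fin (r + 1)) (MvPolynomial (Fin n) k)) :=
      ft_mv inferInstance (r + 1)
    exact hM.of_surjective (Ideal.Quotient.mkₐ k (Ideal.span {lin g}))
      Ideal.Quotient.mk_surjective
  have haff : ∀ (D : Type) [CommRing D] [Algebra k D], Algebra.FiniteType k D →
      HasAffineBundle (aff k D) := by
    intro D _ _ hD
    exact ⟨MvPolynomial (Fin 0) D, inferInstance, inferInstance,
      affHom (MvPolynomial.C : D →+* MvPolynomial (Fin 0) D) rfl, 0, ft_mv hD 0,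
      locTriv_prod D 0⟩
  refine ⟨fun h n r g _ j => h _ (aff_var _ (hcone n r g)) (Or.inr (haff _ (hcone n r g))) j,
    fun h X hX hY j => ?_⟩
  obtain h0 | ⟨D, _, _, q, d, hD, hq⟩ := hY
  · exact ext_all (q1_ext T) (fun A _ _ hA j => affine_of_cones T hS h1 h A hA j) X.hom hX j
  · exact q1_bundle T q d hq hX j (affine_of_cones T hS h1 h D hD (j + d))

end Pool.Agent.Results.MP_40dc3c_ag.CubicHypersurfaces
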