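import Pool.Agent.TH639.SN.Main

/-!
Cyclic coverings `y ^ N = F(x_1, ..., x_m)` of affine and projective space over a finite field, of
degree `N = ℓ ^ a`: if Frobenius has no fixed vector on the middle cohomology with compact support
modulo `ℓ` of the branch hypersurface, then there are no Tate classes in the middle dimension except
those of the linear subspaces.
-/

set_option autoImplicit false
set_option maxHeartbeats 1000000

open Polynomial

namespace Pool.Agent.Results.MP_40dc3c_ag.CyclicCoversOfSpace

open Pool.Agent.TH639.SN

section defs

variable {k : Type} [Field k]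

/-- The ideal generated by the form or polynomial `F` and its partial derivatives. -/
noncomputable def jacobianIdeal {m : ℕ} (F : MvPolynomial (Fin m) k) : Ideal (MvPolynomial (Fin m) k) :=
  Ideal.span (insert F (Set.range fun i => MvPolynomial.pderiv i F))

/-- The polynomial `F` has degree `d`, prime to `ℓ`; the affine hypersurface `F = 0` is smooth; and
the leading form of `F` has no singular zero different from the origin, that is, the projective
hypersurface at infinity is smooth. -/
structure IsBranch (ℓ d : ℕ) {m : ℕ} (F : MvPolynomial (Fin m) k) : Prop where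
  degree : F.totalDegree = d
  prime_to : ¬ ℓ ∣ d
  smooth : jacobianIdeal F = ⊤
  smooth_at_infinity : ∀ i, ∃ n : ℕ,
    MvPolynomial.X i ^ n ∈ jacobianIdeal (MvPolynomial.homogeneousComponent d F)

/-- The polynomial `L` is the numerator of the zeta function: the zeta function of the affine
hypersurface `F = 0` of dimension `m - 1` is `L(T) / (1 - q ^ (m - 1) T)`. If `m` is even and `F` is as
in `IsBranch` then `L(T) = det(1 - T Φ)` for the Frobenius endomorphism `Φ` of the cohomology
with compact support of degree `m - 1` of the hypersurface over an algebraic closure. -/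
def IsNumerator {m : ℕ} (F : MvPolynomial (Fin m) k) (L : ℤ[X]) : Prop :=
  zetaInv m F * (L : PowerSeries ℤ) =
    ((1 - C ((Nat.card k : ℤ) ^ (m - 1)) * X : ℤ[X]) : PowerSeries ℤ)

/-- The product `charProduct χ m F` over the closed points of affine space of dimension `m = 2 c` is a
polynomial over `A` times the product of the `(1 - q ^ c ζ T) ^ (r ζ)`, for the elements `ζ` of `Z`: it
vanishes to order at least `r ζ` at `T = 1 / (q ^ c ζ)`. -/
def VanishesTo {A : Type} [CommRing A] (χ : MulChar k A) {c : ℕ} (F : MvPolynomial (Fin (2 * c)) k)
    (Z : Finset A) (r : A → ℕ) : Prop :=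
  ∃ H : A[X], charProduct χ (2 * c) F =
    (((∏ ζ ∈ Z, (1 - C ((Nat.card k : A) ^ c * ζ) * X) ^ r ζ) * H : A[X]) : PowerSeries A)

/-- The multiplicity of the zero one of the reduction of `L` modulo `ℓ`. -/
noncomputable def multOne (ℓ : ℕ) (L : ℤ[X]) : ℕ :=
  (L.map (Int.castRingHom (ZMod ℓ))).rootMultiplicity 1

theorem dvd_card {A : Type} [CommRing A] [Finite k] {ℓ a : ℕ} (ha : a ≠ 0) {χ : MulChar k A}
    (hχ : orderOf χ = ℓ ^ a) : ℓ ∣ Nat.card k - 1 := by
  have h1 : χ ^ (Nat.card k - 1) = 1 := by
    have hk1 : 1 < Nat.card k := Finite.one_lt_card
    apply MulChar.ext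
    intro a
    have := Fintype.ofFinite k
    rw [MulChar.pow_apply' χ (by omega), MulChar.one_apply a.isUnit, ← map_pow,
      Nat.card_eq_fintype_card, FiniteField.pow_card_sub_one_eq_one _ a.ne_zero, map_one]
  have h2 := orderOf_dvd_of_pow_eq_one h1
  rw [hχ] at h2
  exact (dvd_pow_self ℓ ha).trans h2

end defs

/-- **The Tate conjecture for cyclic coverings of space.**

Let `ℓ` be a prime, `k` a finite field with `q` elements and `χ` a character of `kˣ` of order
`N = ℓ ^ a > 1` (so `N` divides `q - 1`), with values in an integral domain `A` of characteristic zero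
which is integral over the integers, for instance in the ring of all algebraic integers. Let `m = 2 c`
be even and `F` a polynomial of degree `d` in `m` variables as in `IsBranch`: the closure `B` of
the affine hypersurface `F = 0` in projective space is smooth and transversal to the hyperplane at
infinity, and `ℓ` does not divide `d`. (Almost all `F` of degree `d` are of this form.)

The Kummer sheaf of `χ` for `F` is ramified along `B` and along the hyperplane at infinity, which
cross normally, so that its extension by zero to projective space is its full direct image. Hence its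
cohomology with compact support is concentrated in degree `m`, is pure of weight `m` and has
dimension `(d - 1) ^ m`; and `charProduct χ m F` is the characteristic polynomial
`P_χ(T) = det(1 - T Φ)` of the Frobenius endomorphism on this space. The zeta function of the
affine hypersurface `F = 0` is `L(T) / (1 - q ^ (m - 1) T)`, where `L(T) = det(1 - T Φ)` for the
cohomology with compact support of degree `m - 1` of the hypersurface, again of dimension
`(d - 1) ^ m`; it is the product of the primitive parts for `B` and for the intersection of `B` with the
hyperplane at infinity. The number `L(1)` is prime to `ℓ` if and only if Frobenius has no fixed vector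
different from zero on the cohomology with compact support of degree `m - 1` of the branch
hypersurface with coefficients in the field with `ℓ` elements; for `c = 1` it is the number of rational
points of the generalized Jacobian of the affine curve `F = 0`.

Theorem. Let `Z` be any finite set of roots of unity in `A` whose orders are powers of `ℓ`.
(1) The sum over `ζ` in `Z` of the multiplicities of the eigenvalues `q ^ c ζ` of Frobenius for `P_χ`
is at most the multiplicity of the zero one of `L` modulo `ℓ`.
(2) If `ℓ` does not divide `L(1)`, then no `q ^ c ζ` is an eigenvalue.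

Consequences for the question. Let `U` be the smooth affine variety `y ^ N = F(x_1, ..., x_m)`, and
`X` the normal projective variety, finite over projective space, which contains `U`; it is singular in
general. The cohomology with compact support of `U` is that of affine space in degree `2 m` and in
degree `m` the direct sum of the spaces above for the characters of the orders `ℓ ^ b`, `1 ≤ b ≤ a`, to
all of which the theorem applies, with the same `L`. Let `ℓ` not divide `L(1)` and let `k_r` be the
extension of `k` of degree `ℓ ^ r`. By (2) the generalized eigenspace for the eigenvalue one of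
Frobenius over `k_r` on the homology of `U` of degree `2 j`, with twist `j`, is zero for `j ≠ m`; so the
map `c_j` is surjective for `U` over `k_r`, for all `j` and `r`. The covering is totally ramified along
the hyperplane at infinity, because `ℓ` does not divide `d`, so that the complement of `U` in `X` is
homeomorphic to projective space of dimension `m - 1`, even over an algebraic closure. Hence for `X`
too the map `c_j` is surjective, over all the fields `k_r` and for all `j`, and for `m = 2` all smooth
projective surfaces birational to `X` satisfy the Tate conjecture over all the `k_r`. -/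
theorem result (ℓ : ℕ) (hℓ : ℓ.Prime) (a : ℕ) (ha : a ≠ 0) (k : Type) [Field k]
    [Finite k] (A : Type) [CommRing A] [IsDomain A] [CharZero A] [Algebra.IsIntegral ℤ A]
    (χ : MulChar k A) (hχ : orderOf χ = ℓ ^ a) (c : ℕ) (_hc : 0 < c) (d : ℕ)
    (F : MvPolynomial (Fin (2 * c)) k) (_hF : IsBranch ℓ d F) (L : ℤ[X]) (hL : IsNumerator F L)
    (Z : Finset A) (hZ : ∀ ζ ∈ Z, ∃ j : ℕ, ζ ^ (ℓ ^ j) = 1) (r : A → ℕ)
    (hr : VanishesTo χ F Z r) :
    ∑ ζ ∈ Z, r ζ ≤ multOne ℓ L ∧ (¬ (ℓ : ℤ) ∣ L.eval 1 → ∀ ζ ∈ Z, r ζ = 0) := by
  obtain ⟨H, hH⟩ := hr
  have hχ1 : χ ^ (ℓ ^ a) = 1 := by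
    rw [← hχ]
    exact pow_orderOf_eq_one χ
  have h1 := bound_gen hℓ (dvd_card ha hχ) hχ1 (ι := Unit) Finset.univ (fun _ => 2 * c)
    (fun _ => F) {2 * c - 1} (L := L) (by
      rw [Finset.univ_unique, Finset.prod_singleton, Finset.prod_singleton]
      exact hL) Z (fun ζ => (Nat.card k : A) ^ c * ζ) (fun ζ hζ => by
        obtain ⟨j, hj⟩ := hZ ζ hζ
        exact ⟨c * ℓ ^ j, j, by rw [mul_pow, hj, mul_one, ← pow_mul]⟩) r H (by
      rw [Finset.univ_unique, Finset.prod_singleton]
      exact hH)
  rw [Finset.card_singleton, Finset.card_univ, Fintype.card_unit] at h1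
  have h2 : ∑ ζ ∈ Z, r ζ ≤ multOne ℓ L := by
    have h3 : multOne ℓ L = Pool.Agent.TH639.SG.muL ℓ L := rfl
    omega
  refine ⟨h2, fun hL1 => ?_⟩
  have hF2 : Fact ℓ.Prime := ⟨hℓ⟩
  have h3 : multOne ℓ L = 0 := Pool.Agent.TH639.SG.muL_eq_zero hL1
  rw [h3] at h2
  exact fun ζ hζ => Finset.sum_eq_zero_iff.1 (Nat.le_zero.1 h2) ζ hζ

end Pool.Agent.Results.MP_40dc3c_ag.CyclicCoversOfSpace
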