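import Pool.Agent.TH116.BM.Dev

/-!
# Jannsen's form of the Tate conjecture in positive characteristic

In characteristic `0` Jannsen proved that the Tate conjecture for all (singular, not proper) varieties is
equivalent to the Tate conjecture for the smooth projective varieties; the proof needs that the weight
zero part of the homology of a variety is a direct factor of the homology of a smooth projective variety,
which is not known in characteristic `p`. We find the exact relation in characteristic `p`.

Theorem. In characteristic `p` the conjecture (all finitely generated fields `k`, all varieties `X` over `k`,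
all `j`, and a fixed prime `ℓ ≠ p`) is EQUIVALENT to the following statement on smooth projective
varieties `Y` over finite fields: for all `j` the Tate conjecture holds for `H_{2j} (Ȳ, ℚ_ℓ(j))`, and
Frobenius is semisimple at the eigenvalue `1` on this space.

So the conjecture for open varieties contains the semisimplicity: let `S ⊂ Y` be a union of closed
subvarieties of dimension `j` whose classes span the space of all algebraic classes in
`H = H_{2j} (Ȳ, ℚ_ℓ(j))`. The cycles of dimension `j` on `Y ∖ S` are restrictions of cycles on `Y`, so that
their classes vanish in `H_{2j}` of `Y ∖ S`; by the conjecture for `Y ∖ S` the eigenvalue `1` does not occur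
in this space, and the generalized eigenspace of `H` for `1` is contained in the image of `H_{2j}` of `S`, a
permutation representation. In the other direction the generalized eigenspaces for the eigenvalue `1`
are right exact in localization sequences because of the weights, so that de Jong's alterations and
noetherian induction can be used.

(Applied to `Y × Y` the statement shows that the conjecture of Jannsen implies in characteristic `p` that
Frobenius acts semisimply on the cohomology of all smooth projective varieties over finite fields.)
-/

set_option autoImplicit false

namespace Pool.Agent.Results.MP_40dc3c_ag.PositiveCharacteristic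

open Pool.Agent.TH116.BM

/-- The homology of the variety `A ∖ B` over a finite field is mapped to `M`: the classes of
subvarieties of dimension `m` are mapped to combinations of elements of `C`, and every element of `I` is
the image of a generalized eigenvector of Frobenius for the eigenvalue `1`. -/
def Spreads {K : Type} [Field K] (E : Theory K) {Y : E.V} (A B : Set (E.Pt Y)) (m : ℕ)
    (M : ModuleCat.{0} K) (I C : Set M) : Prop :=
  ∃ φ : E.H (2 * m) m A B →ₗ[K] M,
    (∀ (z : E.Z Y m) (h : E.supp z ⊆ A), φ (E.cl z B h) ∈ Submodule.span K C) ∧
      I ⊆ φ '' (Module.End.maxGenEigenspace (E.F : Module.End K (E.H (2 * m) m A B)) 1)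

/-- The varieties `X` over the infinite finitely generated fields `k` of characteristic `p`, the étale
homology `N X j = H_{2j} (X̄, K(j))`, its subspace of invariants of the Galois group of `k`, and the
classes of the closed subvarieties of dimension `j`. -/
structure FinitelyGenerated {K : Type} [Field K] (E : Theory K) where
  W : Type
  N : W → ℕ → ModuleCat.{0} K
  inv : ∀ X j, Submodule K (N X j)
  cyc : ∀ X j, Set (N X j)
  /-- Spreading out: `X` is the generic fibre of a variety over a smooth variety `S` over a finite
  field, with function field `k`. After `S` has been made smaller, restriction to the geometric generic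
  fibre is a map from the homology of degree `2m`, `m = j + dim S`, of the total space `A ∖ B` to that
  of `X`; it maps cycles to cycles, and by the Leray spectral sequence and weights (Deligne) every
  invariant element comes from a generalized eigenvector of Frobenius for the eigenvalue `1`. -/
  spread : ∀ X j, ∃ (Y : E.V) (A B : Set (E.Pt Y)) (m : ℕ), IsClosed A ∧ B ⊆ A ∧
    Spreads E A B m (N X j) (inv X j) (cyc X j)

/-- Jannsen's conjecture in characteristic `p`: for all varieties over finite fields and over the other
finitely generated fields every invariant class is a combination of classes of subvarieties. -/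
def JannsenTate {K : Type} [Field K] (E : Theory K) (D : FinitelyGenerated E) : Prop :=
  (∀ (X : E.V) (A B : Set (E.Pt X)) (m : ℕ), IsClosed A → IsClosed B → B ⊆ A → E.Tate m A B) ∧
    ∀ (X : D.W) (j : ℕ), D.inv X j ≤ Submodule.span K (D.cyc X j)

/-- **Jannsen's conjecture in characteristic `p` is the Tate conjecture together with the
semisimplicity of Frobenius at the eigenvalue `1`, for smooth projective varieties over finite
fields.** -/
theorem result {K : Type} [Field K] [CharZero K] (E : Theory K) (D : FinitelyGenerated E) :
    JannsenTate E D ↔
      ∀ Y : E.V, E.SP Y → ∀ m : ℕ, E.Tate m (Set.univ : Set (E.Pt Y)) ∅ ∧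
        E.SemisimpleAtOne m (Set.univ : Set (E.Pt Y)) ∅ := by
  constructor
  · rintro ⟨h, -⟩ Y hY m
    exact E.Strong_iff.1 ((E.Tate_iff m).1 (fun X A B => h X A B m) Y hY)
  · intro h
    have h1 : ∀ m (Y : E.V), E.SP Y → E.Strong m (Set.univ : Set (E.Pt Y)) ∅ :=
      fun m Y hY => E.Strong_iff.2 (h Y hY m)
    refine ⟨fun X A B m => (E.Tate_iff m).2 (h1 m) X A B, fun X j y hy => ?_⟩
    obtain ⟨Y, A, B, m, hA, hB, φ, hcyc, hsurj⟩ := D.spread X j
    obtain ⟨x, hx, rfl⟩ := hsurj hy
    have h2 : x ∈ E.alg m A B := E.Strong_all m (h1 m) Y hA hB hx
    refine Submodule.span_induction (p := fun x _ => φ x ∈ Submodule.span K (D.cyc X j))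
      ?_ ?_ ?_ ?_ h2
    · rintro _ ⟨z, hz, rfl⟩
      exact hcyc z hz
    · rw [map_zero]; exact zero_mem _
    · intro a b _ _ ha hb
      rw [map_add]; exact add_mem ha hb
    · intro c a _ ha
      rw [map_smul]; exact Submodule.smul_mem _ _ ha

end Pool.Agent.Results.MP_40dc3c_ag.PositiveCharacteristic
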