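import Pool.Agent.TH943.TP.Prod

/-!
The Tate conjecture, in all dimensions and over infinitely many finite fields, for products of any
number of explicit complete singular varieties: the cyclic coverings of projective spaces branched
along `f(x_n) ∏ (x_i - h_i(x_(i-1))) = 0` and the hyperplane at infinity.
-/

set_option autoImplicit false
set_option maxHeartbeats 1000000

open Polynomial TensorProduct

namespace Pool.Agent.Results.MP_40dc3c_ag.ProductsOfCoverings

section defs

variable {κ : Type} [Field κ]

/-- The composition `f(h_n(... h_1(x)))`; here `h_1` is `h 0`. -/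
noncomputable def composite : (n : ℕ) → (Fin n → κ[X]) → κ[X] → κ[X]
  | 0, _, f => f
  | n + 1, h, f => (composite n (fun i => h i.succ) f).comp (h 0)

/-- The value of the function `f(x_n) ^ c ∏ (x_i - h_i(x_(i-1))) ^ b_i`, product over `i = 1, ..., n`,
at the point `x = (x_0, ..., x_n)` of the affine space of dimension `n + 1` over `L`. -/
noncomputable def value {n : ℕ} (L : Type) [Field L] [Algebra κ L] (h : Fin n → κ[X]) (f : κ[X])
    (b : Fin n → ℕ) (c : ℕ) (x : Fin (n + 1) → L) : L :=
  (aeval (x (Fin.last n)) f) ^ c * ∏ i : Fin n, (x i.succ - aeval (x i.castSucc) (h i)) ^ b i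

/-- The number of points over `L` of the open set `U` of affine space where the function is not
zero. -/
noncomputable def openCount {n : ℕ} (L : Type) [Field L] [Algebra κ L] (h : Fin n → κ[X])
    (f : κ[X]) (b : Fin n → ℕ) (c : ℕ) : ℕ :=
  Set.ncard {x : Fin (n + 1) → L | value L h f b c x ≠ 0}

/-- The number of points over `L` of `U` where the power of the function with exponent
`(|L| - 1) / N` is `z ^ i`. -/
noncomputable def fixCount {n : ℕ} (L : Type) [Field L] [Fintype L] [Algebra κ L]
    (h : Fin n → κ[X]) (f : κ[X]) (b : Fin n → ℕ) (c N : ℕ) (z : κ) (i : ℕ) : ℕ :=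
  Set.ncard {x : Fin (n + 1) → L | value L h f b c x ≠ 0 ∧
    (value L h f b c x) ^ ((Fintype.card L - 1) / N) = algebraMap κ L z ^ i}

/-- The data of a covering: a number `n`, polynomials `h_1, ..., h_(n+1)` (`h_1` is `h 0`) and `f`, and
exponents. -/
structure Datum (κ : Type) [Field κ] : Type where
  n : ℕ
  h : Fin (n + 1) → κ[X]
  f : κ[X]
  b : Fin (n + 1) → ℕ
  c : ℕ

/-- The degree of the whole composition. -/
noncomputable def Datum.M (D : Datum κ) : ℕ := (composite (D.n + 1) D.h D.f).natDegree

/-- The degree of the composition without `h_1`. -/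
noncomputable def Datum.K (D : Datum κ) : ℕ := (composite D.n (fun i => D.h i.succ) D.f).natDegree

/-- The degree of `h_1`. -/
noncomputable def Datum.m (D : Datum κ) : ℕ := (D.h 0).natDegree

/-- The dimension of the covering. -/
def Datum.dim (D : Datum κ) : ℕ := D.n + 2

/-- The composition of all the polynomials is irreducible, its degree is not divisible by `p`, the
degrees of the `h_i` are not divisible by the characteristic of `κ`, and the exponents are not
divisible by `p`. -/
structure IsAdmissible (p : ℕ) (D : Datum κ) : Prop where
  irreducible : Irreducible (composite (D.n + 1) D.h D.f)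
  degree : ¬ p ∣ D.M
  tame : ∀ i, ((D.h i).natDegree : κ) ≠ 0
  exponents : ∀ i, ¬ p ∣ D.b i
  exponent : ¬ p ∣ D.c

/-- The number of fixed points on `𝒳` of the composition of the Frobenius over `L` and `g ^ i`: one
over each point of projective space outside `U`, and `p ^ s` over each point counted by `fixCount`. -/
noncomputable def fixedPoints (p s : ℕ) (z : κ) (D : Datum κ) (E L : Type) [Field E] [Field L]
    [Fintype L] [Algebra κ L] (i : ℕ) : E :=
  ((∑ k ∈ Finset.range (D.dim + 1), (Fintype.card L : E) ^ k) -
    (openCount L D.h D.f D.b D.c : E)) + (p : E) ^ s * (fixCount L D.h D.f D.b D.c (p ^ s) z i : E)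

/-- The space `W` is the part of the cohomology of degree `N = n + 2` of the complete covering `𝒳`
of the projective space of dimension `N` on which the group of the covering acts by nontrivial
characters, `Φ` is the Frobenius and `g` the generator of the group of order `p ^ s`. The cohomology of
`𝒳` is the sum of `W` and of the cohomology of projective space. The dimension of the eigenspaces
of `g` is the Euler characteristic of `U`, up to the sign. -/
structure IsCohomology (p s : ℕ) (z : κ) (D : Datum κ) {E W : Type} [Field E] [AddCommGroup W]
    [Module E W] (Φ g : Module.End E W) : Prop where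
  commute : Commute Φ g
  order : g ^ p ^ s = 1
  invariants : ∀ w, g w = w → w = 0
  lefschetz : ∀ (L : Type) [Field L] [Fintype L] [Algebra κ L] (i : ℕ),
    (∑ k ∈ Finset.range (D.dim + 1), (Fintype.card L : E) ^ k) +
        (-1) ^ D.dim * LinearMap.trace E W (Φ ^ Module.finrank κ L * g ^ i) =
      fixedPoints p s z D E L i
  dimension : ∀ ω : E, ω ≠ 1 → ω ^ p ^ s = 1 → Module.finrank E (g.eigenspace ω) + D.K = D.M

/-- The Frobenius on the whole cohomology of `𝒳`: on the sum of the cohomology of projective space of
dimension `N`, where the `k`-th basis vector is the `k`-th power of the class of a hyperplane, on which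
Frobenius is `q ^ k`, and of `W`. -/
noncomputable def frobenius (q N : ℕ) {E W : Type} [Field E] [AddCommGroup W] [Module E W]
    (Φ : Module.End E W) : Module.End E ((Fin (N + 1) → E) × W) :=
  LinearMap.prodMap (LinearMap.pi fun k => ((q : E) ^ (k : ℕ)) • LinearMap.proj k) Φ

/-- The whole cohomology of the product of the varieties `𝒳_i` (Künneth formula). -/
abbrev ProductCohomology (E : Type) [Field E] {ι : Type} (N : ι → ℕ) (W : ι → Type)
    [∀ i, AddCommGroup (W i)] [∀ i, Module E (W i)] : Type :=
  ⨂[E] i, ((Fin (N i + 1) → E) × W i)

/-- The Frobenius on the cohomology of the product. -/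
noncomputable def productFrobenius (q : ℕ) {E : Type} [Field E] {ι : Type} (N : ι → ℕ)
    {W : ι → Type} [∀ i, AddCommGroup (W i)] [∀ i, Module E (W i)]
    (Φ : ∀ i, Module.End E (W i)) : Module.End E (ProductCohomology E N W) :=
  PiTensorProduct.map fun i => frobenius q (N i) (Φ i)

/-- The class of the product of the linear sections of codimensions `k_i` of the `𝒳_i`, that is of
the inverse images of linear subspaces of codimension `k_i` of the projective spaces. -/
noncomputable def linearSection {E : Type} [Field E] {ι : Type} {N : ι → ℕ}
    {W : ι → Type} [∀ i, AddCommGroup (W i)] [∀ i, Module E (W i)] (k : ∀ i, Fin (N i + 1)) :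
    ProductCohomology E N W :=
  ⨂ₜ[E] i, ((Pi.single (k i) 1, 0) : (Fin (N i + 1) → E) × W i)

/-- The space spanned by the classes of the products of linear sections of the codimensions `k_i` with
`∑ k_i = j`. -/
noncomputable def linearClasses (E : Type) [Field E] {ι : Type} [Fintype ι] (N : ι → ℕ)
    (W : ι → Type) [∀ i, AddCommGroup (W i)] [∀ i, Module E (W i)] (j : ℕ) :
    Submodule E (ProductCohomology E N W) :=
  Submodule.span E (linearSection '' {k : ∀ i, Fin (N i + 1) | ∑ i, (k i : ℕ) = j})

theorem composite_eq (n : ℕ) : ∀ (h : Fin n → κ[X]) (f : κ[X]),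
    composite n h f = Pool.Agent.TH943.IP.cmp n h f := by
  induction n with
  | zero => intro h f; rfl
  | succ n ih =>
    intro h f
    show (composite n (fun i => h i.succ) f).comp (h 0) = _
    rw [ih]
    rfl

end defs

/-- **The Tate conjecture for products of explicit complete varieties of all dimensions.**

Let `p` be a prime and `κ` a finite field with `q` elements which contains a primitive root of unity
`z` of order `p ^ s`, `s ≥ 1`. For every `i` in a finite set let `f_i` and `h_(i,1), ..., h_(i,n+1)`,
`n = n_i ≥ 0`, be polynomials over `κ` such that `f_i(h_(i,n+1)(... h_(i,1)(x)))` is irreducible of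
degree `M_i` prime to `p`, the degrees of the `h_(i,j)` are prime to the characteristic, and `c_i`,
`b_(i,j)` positive integers prime to `p`. Let `N_i = n_i + 2 ≥ 2`, and let `U_i` be the open set of the
projective space of dimension `N_i` given in the affine space with the coordinates
`x_0, ..., x_(n+1)` by `G_i ≠ 0`, `G_i = f_i(x_(n+1)) ^ (c_i) ∏ (x_j - h_(i,j)(x_(j-1))) ^ (b_(i,j))`;
`F_i` a form of degree divisible by `p ^ s` with `F_i = G_i` on the affine space and `F_i = 0` on the
hyperplane at infinity; and `𝒳_i` the complete variety `v ^ (p ^ s) = F_i` of dimension `N_i`, in a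
weighted projective space, a covering of projective space with one point over each point outside
`U_i`. It is singular in general.

For a prime `ℓ` prime to `q` and `E` an algebraic closure of the field of `ℓ`-adic numbers, the
cohomology of `𝒳_i` is the sum of that of the projective space and of the `H^j_c(U_i, L_χ)`, `χ` the
nontrivial characters of order dividing `p ^ s`. These are zero for `j ≠ N_i`: this is known for
`j < N_i`, as `U_i` is affine and smooth; for `j > N_i` one integrates over `x_0, x_1, ...`, and the
sheaves that appear have no coinvariants for the inertia at infinity (the characters of its tame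
quotient that appear are products of characters of `p`-power order with nontrivial characters of order
prime to `p`, or are equal to `χ ^ (b deg h_(i,1))` in the first step). So `IsCohomology` holds, by the
Grothendieck-Lefschetz formula, and `productFrobenius` is the Frobenius of the product
`X = ∏ 𝒳_i` on its whole cohomology, by the Künneth formula.

Assume that for `i ≠ j` the degree of `h_(i,1)` is prime to `M_j`. (For one factor this is no
condition.) Let `r ≥ 1` be prime to the degrees of all `h_(i,1)`, and `κ_r` the extension of `κ` of
degree `r`.

Theorem: for every `j`, the generalized eigenspace of the Frobenius over `κ_r` for the eigenvalue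
`q ^ (r j)` on the whole cohomology of `X` is spanned by the classes of the products of linear
sections of codimensions `k_i` of the `𝒳_i`, with `∑ k_i = j`.

Consequences for the question: `H_(2 j)(X, E(j))` is the dual of the cohomology of degree `2 j`. Its
invariants under the Galois group of `κ_r` are the linear forms on the space of the theorem, which
Frobenius multiplies by `q ^ (r j)`; they are spanned by the classes of the products of the inverse
images of linear subspaces of the dimensions `k_i`, `∑ k_i = j`. So the map `c_j` is surjective for
`X` over `κ_r`, for all `j`, and the eigenvalue one is semisimple. The dimension of `W_i` is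
`(p ^ s - 1) (M_i - M_i / deg h_(i,1))`, so that all middle Betti numbers are unbounded.

Example: `κ` with `211` elements, `p = 2`, `i = 1, 2, 3`; `f_i` any monic irreducible polynomial of
degree `11` with `f_i(0) = -2` (the element `2` generates the multiplicative group of `κ`), and all
`h_(i,j)` equal to `x ^ 3`, `x ^ 5`, `x ^ 7` for `i = 1, 2, 3`, with any `n_1`, `n_2`, `n_3`. -/
theorem result (p s : ℕ) (hp : p.Prime) (hs : 1 ≤ s) (κ : Type) [Field κ] [Fintype κ] (z : κ)
    (hz : IsPrimitiveRoot z (p ^ s)) (ι : Type) [Fintype ι] (D : ι → Datum κ)
    (hadm : ∀ i, IsAdmissible p (D i)) (hcop : ∀ i j, i ≠ j → Nat.Coprime (D i).m (D j).M)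
    (E : Type) [Field E] [CharZero E] [IsAlgClosed E] (W : ι → Type)
    [∀ i, AddCommGroup (W i)] [∀ i, Module E (W i)] [∀ i, FiniteDimensional E (W i)]
    (Φ g : ∀ i, Module.End E (W i)) (hW : ∀ i, IsCohomology p s z (D i) (Φ i) (g i))
    (r : ℕ) (hr0 : 0 < r) (hr : ∀ i, Nat.Coprime (D i).m r) (j : ℕ) :
    (productFrobenius (Fintype.card κ) (fun i => (D i).dim) Φ ^ r).maxGenEigenspace
        ((Fintype.card κ : E) ^ (r * j)) =
      linearClasses E (fun i => (D i).dim) W j := by
  classical
  have hmain : ∀ i, (Φ i).IsSemisimple ∧
      ∀ (k : Type) [Field k] [CharP k p] (θ : (integralClosure ℤ E).toSubring →+* k) (α : E)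
        (w : W i), w ≠ 0 → Φ i w = α • w → ∃ x : (integralClosure ℤ E).toSubring, (x : E) = α ∧
          θ x ^ (D i).M = 1 ∧ θ x ^ (D i).K ≠ 1 := by
    intro i
    have hirr := (hadm i).irreducible
    have hdeg := (hadm i).degree
    have hdim := (hW i).dimension
    unfold Datum.M at hdeg hdim ⊢
    unfold Datum.K at hdim ⊢
    rw [composite_eq] at hirr hdeg
    simp only [composite_eq] at hdim ⊢
    refine Pool.Agent.TH943.TP.eig_main hp hs κ hz (D i).h (D i).f (b := (D i).b) (c := (D i).c)
      ?_ ?_ hirr hdeg (Φ i) (g i) (hW i).commute (hW i).order (hW i).invariants ?_ hdim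
    · intro l h0
      exact (hadm i).exponents l (by rw [h0]; exact dvd_zero p)
    · intro h0
      exact (hadm i).exponent (by rw [h0]; exact dvd_zero p)
    · intro L _ _ _ l
      have h1 := (hW i).lefschetz L l
      have h2 : (-1) ^ ((D i).n + 2) *
          LinearMap.trace E (W i) (Φ i ^ Module.finrank κ L * g i ^ l) =
          (p : E) ^ s * (fixCount L (D i).h (D i).f (D i).b (D i).c (p ^ s) z l : E) -
            (openCount L (D i).h (D i).f (D i).b (D i).c : E) := by
        unfold fixedPoints Datum.dim at h1
        linear_combination h1
      exact h2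
  have hM : ∀ i, (D i).M = (D i).K * (D i).m := by
    intro i
    unfold Datum.M Datum.K Datum.m
    rw [composite_eq, composite_eq, Pool.Agent.TH943.IP.cmp_succ, natDegree_comp]
  have h1 := Pool.Agent.TH943.TP.prod_main hp (q := Fintype.card κ) Fintype.one_lt_card
    (fun k _ _ => Pool.Agent.W528.HS.card_eq_one hp hs hz k) (fun i => (D i).dim)
    (fun i => (D i).K) (fun i => (D i).m) (fun i j hij => by
      have h2 := hcop i j hij
      rw [hM j] at h2
      exact h2) (E := E) (W := W) Φ (fun i => (hmain i).1) (fun i k _ _ θ α w hw hα => by
      obtain ⟨x, hx1, hx2, hx3⟩ := (hmain i).2 k θ α w hw hα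
      refine ⟨x, hx1, ?_, hx3⟩
      rw [← hM i]
      exact hx2) hr0 hr j
  exact h1

end Pool.Agent.Results.MP_40dc3c_ag.ProductsOfCoverings
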